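import Pool.Agent.R534.IC.Cases
import Pool.Agent.R534.IC.Conv

/-!
# Index sets of `Π⁰₁` classes in `2^ω` with cardinality in a given set `C`

All the definitions are in `Pool.Agent.R534.IC.Defs`:
* `EffEnum π`: `π` is an effective enumeration of the primitive recursive functions from codes of
  finite sequences to `{0,1}`;
* `Tree π e`, `Cls π e`, `Q π e`: the tree `U_e`, the class `P_e = [U_e]`, and `P_e ∩ 2^ω`;
* `I π C`: the index set `I_C = {e : P_e ∩ 2^ω is finite with cardinality in C}`;
* `Sigma1`, `Pi1`, `Sigma2`, `Pi2`, `Sigma3`: the arithmetical classes of subsets of `ℕ`;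
* `DSigma2 n`: level `n` of the difference hierarchy over `Σ⁰₂`; `CoDSigma2 n`: its dual;
* `Gam C`: the class `Γ_C`;
* `Approachable C`: `C` contains an unbounded sequence of numbers `v i` with
  `{(i, c) : c ≤ v i}` a `Σ⁰₂` set;
* `Complete Γ X`: `X` is `Γ`-complete for many-one reducibility;
* `Changes C`: the set of the `k ≥ 1` with exactly one of `k, k + 1` in `C`.  If `C` is finite and
  `C \ {0}` consists of `b` maximal blocks of consecutive numbers, there are `2 b` of them if
  `1 ∉ C`, and `2 b - 1` if `1 ∈ C`.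
-/

namespace Pool.Agent.Results.MP_46183d_lc.CardinalityIndexSets

open Pool.R534.IC

theorem result :
    -- effective enumerations of the primitive recursive functions exist, and for each of them:
    (∃ π : ℕ → ℕ → Bool, EffEnum π) ∧
    ∀ π : ℕ → ℕ → Bool, EffEnum π →
      -- `I_C` is `Γ_C`-complete, for every `C ⊆ ω`
      (∀ C : Set ℕ, Complete (Gam C) (I π C)) ∧
      -- infinite `C` which are computable, c.e., `Π⁰₁`, or only `Π⁰₂`: `Σ⁰₃`-complete
      (∀ C : Set ℕ, C.Infinite →
        ((∃ f : ℕ → Bool, Computable f ∧ ∀ x, x ∈ C ↔ f x = true) ∨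
          Sigma1 C ∨ Pi1 C ∨ Pi2 C) → Complete Sigma3 (I π C)) ∧
      -- finite `C ⊄ {0}` with `1 ∉ C`: complete for level `n` of the difference hierarchy
      (∀ C : Set ℕ, C.Finite → (∃ c ∈ C, 1 ≤ c) → 1 ∉ C →
        Complete (DSigma2 (Changes C).ncard) (I π C)) ∧
      -- finite `C` with `1 ∈ C`: complete for the dual of level `n` of the difference hierarchy
      (∀ C : Set ℕ, C.Finite → 1 ∈ C → Complete (CoDSigma2 (Changes C).ncard) (I π C)) ∧
      -- `C ⊆ {0}`
      Complete Sigma1 (I π {0}) ∧ I π ∅ = ∅ ∧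
      -- exact characterization of `Σ⁰₃`-hardness and of `Σ⁰₃`-completeness, for every `C ⊆ ω`
      (∀ C : Set ℕ,
        (∀ Y, Sigma3 Y → ManyOneReducible (fun x => x ∈ Y) (fun e => e ∈ I π C)) ↔
          Approachable C) ∧
      (∀ C : Set ℕ, Complete Sigma3 (I π C) ↔ Sigma3 C ∧ Approachable C) := by
  refine ⟨⟨stdEnum, exists_effEnum⟩, fun π hπ => ⟨I_complete hπ, ?_,
    fun C hf hC h1 => finite_even hπ hf hC h1, fun C hf h1 => finite_odd hπ hf h1,
    zero_complete hπ, I_empty π, hard_iff hπ, complete_iff hπ⟩⟩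
  intro C hinf hC
  refine pi2_complete hπ ?_ hinf
  rcases hC with ⟨f, hf, h⟩ | h | h | h
  · exact Pi1.pi2 ⟨fun q => f q.1, hf.comp Computable.fst, fun x => by rw [h x]; simp⟩
  · exact h.pi2
  · exact h.pi2
  · exact h

end Pool.Agent.Results.MP_46183d_lc.CardinalityIndexSets
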